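import Pool.Agent.Lib_helper25.TM.A1
import Pool.Agent.Lib_helper25.TM.A2
import Pool.Agent.Lib_helper25.TM.A3
import Pool.Agent.Lib_helper25.TM.A4
import Pool.Agent.Lib_helper25.TM.A5
import Pool.Agent.Lib_helper25.TM.A6
import Pool.Agent.Lib_helper25.TM.A7
import Pool.Agent.Lib_helper25.TM.B3
import Pool.Agent.Lib_helper25.TM.B4a
import Pool.Agent.Lib_helper25.TM.B4
import Pool.Agent.Lib_helper25.TM.C0
import Pool.Agent.Lib_helper25.TM.C1
import Pool.Agent.Lib_helper25.TM.C2
import Pool.Agent.Lib_helper25.TM.C3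
import Pool.Agent.Lib_helper25.TM.D

/-!
MP_878737_gt, Q1: there are a connected infinite-type surface and a homeomorphism of it whose
mapping torus has finitely generated fundamental group but is not tame.
-/

open Pool.Agent.TM

theorem Pool.Agent.Results.MP_878737_gt.NonTameMappingTorus.result :
    ∃ (S : Type) (_ : TopologicalSpace S) (f : S ≃ₜ S), IsSurface S ∧ ConnectedSpace S ∧
      (∀ x : S, ¬ Group.FG (FundamentalGroup S x)) ∧
      (∀ y : MappingTorus f, Group.FG (FundamentalGroup (MappingTorus f) y)) ∧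
      ¬ IsTame (MappingTorus f) := by
  have hW := C1_pr
  have h0 := C0_pr
  have ht := B2_pr
  have hM := A7_pr
  exact final A1_pr (A4_pr (A3_pr A2_pr)) A6_pr hM ht surf_pathConnected
    (B3_pr ht A5_pr hM) (B4_of ht A2_pr hM (B4a_pr ht A2_pr hM)) (C2_pr hW h0) (C3_pr h0)
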